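import Pool.Agent.L7h35.RQ5.Stm

set_option autoImplicit false

open Filter Topology

namespace Pool.Agent.L7h35.RQ6

open Pool.Agent.L7h35.RQ5

/-- LEV: for every level `m` there are sets of `W ^ (2^(m+1) - 1)` vectors with at most
`C W ^ (2^m)` positive parts of differences. -/
def S_LEV : Prop := ∀ m : ℕ, ∃ C : ℕ, ∀ W : ℕ, 1 ≤ W → ∃ (ι : Type) (_ : Fintype ι)
  (X : Finset (ι → ℤ)), X.card = W ^ (2 ^ (m + 1) - 1) ∧ (T X).card ≤ C * W ^ (2 ^ m)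

lemma level (hVN : S_VN) (hLEV : S_LEV) (L : ℝ) (hL : ∀ n : ℕ, n ≠ 0 → (n : ℝ) ^ L ≤ h n)
    (m : ℕ) : ((2 : ℝ) ^ (m + 1) - 1) * L ≤ 2 ^ m := by
  obtain ⟨C, hC⟩ := hLEV m
  by_contra hcon
  push Not at hcon
  set a : ℝ := (2 : ℝ) ^ (m + 1) - 1 with ha
  have hapos : 0 < a * L - 2 ^ m := by linarith
  have hkey : ∀ W : ℕ, 1 ≤ W → (W : ℝ) ^ (a * L - 2 ^ m) ≤ C := by
    intro W hW
    obtain ⟨ι, hι, X, hX, hT⟩ := hC W hW
    have hW0 : (0 : ℝ) < W := by exact_mod_cast hW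
    have h1 : h (W ^ (2 ^ (m + 1) - 1)) ≤ C * W ^ (2 ^ m) := by
      rw [← hX]; exact (hVN ι hι X).trans hT
    have h2 := hL (W ^ (2 ^ (m + 1) - 1)) (by positivity)
    have h3 : ((W ^ (2 ^ (m + 1) - 1) : ℕ) : ℝ) ^ L ≤ C * (W : ℝ) ^ (2 ^ m) := by
      refine h2.trans ?_
      exact_mod_cast h1
    have hexp : ((2 ^ (m + 1) - 1 : ℕ) : ℝ) = a := by
      rw [Nat.cast_sub Nat.one_le_two_pow]
      push_cast
      rfl
    have h4 : ((W ^ (2 ^ (m + 1) - 1) : ℕ) : ℝ) ^ L = (W : ℝ) ^ (a * L) := by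
      rw [Nat.cast_pow, ← Real.rpow_natCast, ← Real.rpow_mul hW0.le, hexp]
    rw [h4] at h3
    have h5 : (W : ℝ) ^ (2 ^ m) = (W : ℝ) ^ ((2 : ℝ) ^ m) := by
      rw [← Real.rpow_natCast]
      push_cast
      rfl
    rw [h5] at h3
    rw [Real.rpow_sub hW0, div_le_iff₀ (Real.rpow_pos_of_pos hW0 _)]
    exact h3
  have htend : Tendsto (fun W : ℕ => (W : ℝ) ^ (a * L - 2 ^ m)) atTop atTop :=
    (tendsto_rpow_atTop hapos).comp tendsto_natCast_atTop_atTop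
  obtain ⟨W, hW1, hW2⟩ := ((htend.eventually_gt_atTop (C : ℝ)).and (eventually_ge_atTop 1)).exists
  exact absurd (hkey W hW2) (not_le.mpr hW1)

theorem half (hVN : S_VN) (hLEV : S_LEV) (L : ℝ)
    (hL : ∀ n : ℕ, n ≠ 0 → (n : ℝ) ^ L ≤ h n) : L ≤ 1 / 2 := by
  by_contra hcon
  push Not at hcon
  have h1 : ∀ m : ℕ, (2 : ℝ) ^ (m + 1) * (L - 1 / 2) ≤ L := by
    intro m
    have h2 := level hVN hLEV L hL m
    rw [pow_succ] at h2 ⊢
    nlinarith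
  have h3 : 0 < L - 1 / 2 := by linarith
  obtain ⟨m, hm⟩ := pow_unbounded_of_one_lt (L / (L - 1 / 2)) (show (1 : ℝ) < 2 by norm_num)
  rw [div_lt_iff₀ h3] at hm
  have h4 := h1 m
  have h5 : (2 : ℝ) ^ m * (L - 1 / 2) ≤ 2 ^ (m + 1) * (L - 1 / 2) := by
    rw [pow_succ]
    have : 0 ≤ (2 : ℝ) ^ m * (L - 1 / 2) := by positivity
    nlinarith
  linarith

/-- from `log h / log n → 1 / 2` to `h n ≤ n ^ (1 / 2 + ε)` for large `n` -/
lemma eps (h0 : ∀ n : ℕ, n ≤ h n ^ 2)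
    (ht : Tendsto (fun n : ℕ => Real.log (h n) / Real.log n) atTop (𝓝 (1 / 2 : ℝ))) :
    ∀ ε : ℝ, 0 < ε → ∀ᶠ n : ℕ in atTop, (h n : ℝ) ≤ (n : ℝ) ^ (1 / 2 + ε) := by
  intro ε hε
  have h1 : ∀ᶠ n : ℕ in atTop, Real.log (h n) / Real.log n < 1 / 2 + ε :=
    ht.eventually_lt_const (by linarith)
  filter_upwards [h1, eventually_ge_atTop 2] with n hn hn2
  have hn0 : (0 : ℝ) < n := by exact_mod_cast (by omega : 0 < n)
  have hlog : 0 < Real.log n := Real.log_pos (by exact_mod_cast hn2)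
  rw [div_lt_iff₀ hlog] at hn
  have hh : (0 : ℝ) < h n := by
    have := h0 n
    have h2 : h n ≠ 0 := by
      intro h3
      rw [h3] at this
      omega
    exact_mod_cast Nat.pos_of_ne_zero h2
  rw [← Real.log_le_log_iff hh (Real.rpow_pos_of_pos hn0 _), Real.log_rpow hn0]
  exact hn.le

end Pool.Agent.L7h35.RQ6
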